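import Pool.Agent.Y840.CI.Fin1

/-!
# Primes in long intervals, size conditions
-/

set_option autoImplicit false

namespace Pool.Agent.Y840.CI

open Finset Filter Pool.Agent.W23.DC Pool.Agent.Y660.RP
open Pool.Agent.Y843.CH

theorem pi_bounds (η : ℝ) (hη : 0 < η) (hη1 : η ≤ 1 / 10) : ∃ N₀ : ℕ, ∀ N : ℕ, N₀ ≤ N → ∀ X : ℕ,
    N ^ 2 ≤ X → X < (N + 1) ^ 2 → ∀ y : ℕ, N ≤ y → y ≤ X →
    ((y : ℝ) - 2 * η * X) / (2 * Real.log N) ≤ (Nat.primeCounting y : ℝ) ∧
    (Nat.primeCounting y : ℝ) ≤ ((y : ℝ) + 7 * η * X) / (2 * Real.log N) := by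
  obtain ⟨A, hA⟩ := Metric.tendsto_atTop.1 Pool.Agent.Helper923.PNT.pi_tendsto η hη
  obtain ⟨N₁, hN₁⟩ := ev_log (1 / η + Real.log (1 / η) * (1 + η) / (2 * η) + 1)
  refine ⟨max N₁ (max 4 (⌈A⌉₊ + 1)), ?_⟩
  intro N hN X h1 h2 y hNy hyX
  have hNN₁ : N₁ ≤ N := (le_max_left _ _).trans hN
  have hN4 : 4 ≤ N := ((le_max_left _ _).trans (le_max_right _ _)).trans hN
  have hNA : ⌈A⌉₊ + 1 ≤ N := ((le_max_right _ _).trans (le_max_right _ _)).trans hN
  have hL' := hN₁ N hNN₁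
  obtain ⟨g1, g2⟩ := log_sq hN4 h1 h2
  have hlη : 0 < Real.log (1 / η) := Real.log_pos (by rw [lt_div_iff₀ hη]; linarith)
  have hN0 : (0 : ℝ) < N := by exact_mod_cast (by omega : 0 < N)
  have hy0 : (0 : ℝ) < y := by exact_mod_cast (by omega : 0 < y)
  have hyXr : (y : ℝ) ≤ X := by exact_mod_cast hyX
  have hNyr : (N : ℝ) ≤ y := by exact_mod_cast hNy
  have hX0 : (0 : ℝ) < X := by linarith
  have hAy : A ≤ y := by
    have e1 : A ≤ ⌈A⌉₊ := Nat.le_ceil A
    have e2 : ((⌈A⌉₊ : ℕ) : ℝ) ≤ y := by exact_mod_cast (by omega : ⌈A⌉₊ ≤ y)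
    linarith
  have h3 := hA y hAy
  rw [Nat.floor_natCast, Real.dist_eq, abs_lt] at h3
  obtain ⟨L, hLd⟩ : ∃ L : ℝ, L = Real.log N := ⟨_, rfl⟩
  rw [← hLd] at hL' g1 g2 ⊢
  have e0 : 0 < 1 / η := by positivity
  have e0' : 0 < Real.log (1 / η) * (1 + η) / (2 * η) := by positivity
  have hL1 : 1 ≤ L := by linarith
  have hLη : 1 ≤ L * η := by
    have : 1 / η ≤ L := by linarith
    rwa [div_le_iff₀ hη] at this
  have hLc : Real.log (1 / η) * (1 + η) ≤ 2 * (L * η) := by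
    have : Real.log (1 / η) * (1 + η) / (2 * η) ≤ L := by linarith
    rw [div_le_iff₀ (by positivity)] at this
    linarith
  have hlyN : L ≤ Real.log y := by rw [hLd]; exact Real.log_le_log hN0 hNyr
  have hlyX : Real.log y ≤ Real.log X := Real.log_le_log hy0 hyXr
  have hly0 : 0 < Real.log y := by linarith
  obtain ⟨P, hP⟩ : ∃ P : ℝ, P = (Nat.primeCounting y : ℝ) := ⟨_, rfl⟩
  rw [← hP] at h3 ⊢
  have hP0 : 0 ≤ P := by rw [hP]; positivity
  have e3 : (1 - η) * y ≤ P * Real.log y := by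
    have h4 : 1 - η ≤ P * Real.log y / y := by linarith [h3.1]
    rwa [le_div_iff₀ hy0] at h4
  have e4 : P * Real.log y ≤ (1 + η) * y := by
    have h4 : P * Real.log y / y ≤ 1 + η := by linarith [h3.2]
    rwa [div_le_iff₀ hy0] at h4
  constructor
  · rw [div_le_iff₀ (by linarith)]
    have e5 : P * Real.log y ≤ P * (2 * L + 1) := mul_le_mul_of_nonneg_left (by linarith) hP0
    -- `(1 - η) y ≤ P (2 L + 1)`
    by_contra hcon
    push Not at hcon
    have e6 : (1 - η) * y * (2 * L) ≤ (P * (2 * L)) * (2 * L + 1) := by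
      calc (1 - η) * y * (2 * L) ≤ (P * (2 * L + 1)) * (2 * L) :=
            mul_le_mul_of_nonneg_right (e3.trans e5) (by linarith)
        _ = _ := by ring
    have e7 : (P * (2 * L)) * (2 * L + 1) < ((y : ℝ) - 2 * η * X) * (2 * L + 1) :=
      mul_lt_mul_of_pos_right hcon (by linarith)
    have e8 : (L * η) * (y : ℝ) ≤ (L * η) * X := mul_le_mul_of_nonneg_left hyXr (by linarith)
    have e9 : 1 * (X : ℝ) ≤ (L * η) * X := mul_le_mul_of_nonneg_right hLη hX0.le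
    have e10 : 0 ≤ η * (X : ℝ) := by positivity
    nlinarith
  · rw [le_div_iff₀ (by linarith)]
    rcases le_or_gt (η * X) (y : ℝ) with hc | hc
    · -- `log y ≥ 2 L - log (1 / η)`
      have f1 : 2 * L - Real.log (1 / η) ≤ Real.log y := by
        have f2 := Real.log_le_log (by positivity) hc
        rw [Real.log_mul hη.ne' hX0.ne'] at f2
        rw [one_div, Real.log_inv]
        linarith
      have f3 : P * (2 * L - Real.log (1 / η)) ≤ (1 + η) * y :=
        (mul_le_mul_of_nonneg_left f1 hP0).trans e4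
      have f4 : 2 * L ≤ (1 + η) * (2 * L - Real.log (1 / η)) := by linarith
      have f5 : P * (2 * L) ≤ (1 + η) * ((1 + η) * y) := by
        calc P * (2 * L) ≤ P * ((1 + η) * (2 * L - Real.log (1 / η))) := mul_le_mul_of_nonneg_left f4 hP0
          _ = (1 + η) * (P * (2 * L - Real.log (1 / η))) := by ring
          _ ≤ _ := mul_le_mul_of_nonneg_left f3 (by linarith)
      have f6 : η * (y : ℝ) ≤ η * X := mul_le_mul_of_nonneg_left hyXr hη.le
      have f7 : η * (η * (y : ℝ)) ≤ 1 * (η * X) := by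
        apply mul_le_mul _ f6 (by positivity) zero_le_one
        linarith
      have f8 : 0 ≤ η * (X : ℝ) := by positivity
      nlinarith
    · have f1 : P * (2 * L) ≤ 2 * ((1 + η) * y) := by
        have : P * L ≤ P * Real.log y := mul_le_mul_of_nonneg_left hlyN hP0
        linarith
      have f8 : 0 ≤ η * (X : ℝ) := by positivity
      nlinarith

/-- the primes in long intervals -/
theorem pnt_int (θ : ℝ) (hθ : 0 < θ) (hθ1 : θ ≤ 1) : ∃ N₀ : ℕ, ∀ N : ℕ, N₀ ≤ N → ∀ X : ℕ, N ^ 2 ≤ X →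
    X < (N + 1) ^ 2 → ∀ A B : ℕ, N ≤ A → A ≤ B → B ≤ X → θ * X ≤ (B : ℝ) - A →
    4995 / 10000 * (((B : ℝ) - A) / Real.log N) ≤ ((PNX A B).card : ℝ) ∧
      ((PNX A B).card : ℝ) ≤ ((B : ℝ) - A) / Real.log N := by
  obtain ⟨N₀, hN₀⟩ := pi_bounds (θ / 20000) (by positivity) (by linarith)
  refine ⟨max N₀ 4, ?_⟩
  intro N hN X h1 h2 A B hNA hAB hBX hθX
  have hNN₀ : N₀ ≤ N := (le_max_left _ _).trans hN
  have hN4 : 4 ≤ N := (le_max_right _ _).trans hN
  obtain ⟨a1, a2⟩ := hN₀ N hNN₀ X h1 h2 A hNA (hAB.trans hBX)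
  obtain ⟨b1, b2⟩ := hN₀ N hNN₀ X h1 h2 B (hNA.trans hAB) hBX
  have hL : 0 < Real.log N := Real.log_pos (by exact_mod_cast (by omega : 1 < N))
  rw [card_PNX' hAB, pi1_eq, pi1_eq]
  obtain ⟨L, hLd⟩ : ∃ L : ℝ, L = Real.log N := ⟨_, rfl⟩
  rw [← hLd] at hL a1 a2 b1 b2 ⊢
  rw [div_le_iff₀ (by linarith)] at a1 b1
  rw [le_div_iff₀ (by linarith)] at a2 b2
  constructor
  · rw [mul_div_assoc', div_le_iff₀ hL]
    nlinarith
  · rw [le_div_iff₀ hL]
    nlinarith

theorem lam_le' (δ : ℝ) (hδ : 0 < δ) (N J : ℕ) (hN : 4 ≤ N)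
    (hJ : J = ⌈417 / 1000 * Real.log N / Real.log (1 + δ)⌉₊) :
    1 ≤ J ∧ (N : ℝ) ^ (417 / 1000 / (J : ℝ)) ≤ 1 + δ ∧
      (J : ℝ) ≤ 1 / Real.log (1 + δ) * Real.log N + 1 := by
  have hN0 : (1 : ℝ) < N := by exact_mod_cast (by omega : 1 < N)
  have hL : 0 < Real.log N := Real.log_pos hN0
  have hl : 0 < Real.log (1 + δ) := Real.log_pos (by linarith)
  have h0 : 0 < 417 / 1000 * Real.log N / Real.log (1 + δ) := by positivity
  have hJ1 : 1 ≤ J := by
    rw [hJ]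
    exact Nat.one_le_iff_ne_zero.2 (Nat.ceil_pos.2 h0).ne'
  have hJr : (1 : ℝ) ≤ J := by exact_mod_cast hJ1
  refine ⟨hJ1, ?_, ?_⟩
  · rw [← Real.log_le_log_iff (Real.rpow_pos_of_pos (by linarith) _) (by linarith),
      Real.log_rpow (by linarith), div_mul_eq_mul_div, div_le_iff₀ (by linarith)]
    have h1 := Nat.le_ceil (417 / 1000 * Real.log N / Real.log (1 + δ))
    rw [← hJ, div_le_iff₀ hl] at h1
    linarith
  · have h1 := Nat.ceil_lt_add_one h0.le
    rw [← hJ] at h1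
    have h2 : 417 / 1000 * Real.log N / Real.log (1 + δ) ≤ 1 / Real.log (1 + δ) * Real.log N := by
      have e : 1 / Real.log (1 + δ) * Real.log (N : ℝ) = Real.log N / Real.log (1 + δ) := by ring
      rw [e]
      apply div_le_div_of_nonneg_right _ hl.le
      linarith
    linarith

end Pool.Agent.Y840.CI
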