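import Pool.Agent.Y840.CI.Loc

/-!
# The upper bound for the primes of the critical type in an interval
-/

set_option autoImplicit false

namespace Pool.Agent.Y840.CI

open Finset Filter Pool.Agent.W23.DC Pool.Agent.Y660.RP
open Pool.Agent.Y843.HS (Pr VV Pr_mem Pr_prime VV_split)
open Pool.Agent.Y843.HG (Adm Z0 SP V1 V1_bounds log_floor)
open Pool.Agent.Y843.QD (vZ dvd_vZ)
open Pool.Agent.Y843.CH

theorem aI_le {X A B : ℕ} {h : ℤ} (hX : h.natAbs ≤ X) (hAB : A ≤ B) (hB : B ≤ X) (s : ℤ) :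
    0 ≤ aI A B h s ∧ aI A B h s ≤ bI A B h s ∧ bI A B h s ≤ 2 * X := by
  have h1 : (|h| : ℤ) ≤ X := by
    rw [Int.abs_eq_natAbs]
    exact_mod_cast hX
  have h2 : |(h : ℝ)| ≤ X := by exact_mod_cast h1
  rw [abs_le] at h2
  have h3 : (A : ℝ) ≤ B := by exact_mod_cast hAB
  have h4 : (B : ℝ) ≤ X := by exact_mod_cast hB
  have h5 : (0 : ℝ) ≤ A := Nat.cast_nonneg _
  unfold aI bI
  split_ifs
  · exact ⟨le_max_right _ _, max_le_max (by linarith) le_rfl, max_le (by linarith) (by linarith)⟩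
  · exact ⟨le_max_right _ _, max_le_max (by linarith) le_rfl, max_le (by linarith) (by linarith)⟩

theorem abI_sum {A B : ℕ} (hAB : A ≤ B) (h : ℤ) :
    (bI A B h 1 - aI A B h 1) + (bI A B h (-1) - aI A B h (-1)) ≤ (B : ℝ) - A + 1 := by
  have h3 : (A : ℝ) ≤ B := by exact_mod_cast hAB
  unfold aI bI
  rw [if_pos rfl, if_pos rfl, if_neg (by norm_num), if_neg (by norm_num)]
  rcases le_total (h : ℝ) A with h1 | h1
  · rw [max_eq_left (by linarith), max_eq_left (by linarith), max_eq_right (by linarith),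
      max_eq_right (by linarith)]
    linarith
  · rcases le_total (h : ℝ) B with h2 | h2
    · rw [max_eq_left (by linarith), max_eq_right (by linarith), max_eq_left (by linarith),
        max_eq_right (by linarith)]
      linarith
    · rw [max_eq_right (by linarith), max_eq_right (by linarith), max_eq_left (by linarith)]
      have := le_max_left ((h : ℝ) - B - 1) 0
      linarith

/-- the mass of the block `(s, j)` -/
noncomputable def ms' (A B N X J : ℕ) (δ : ℝ) (h s : ℤ) (j : ℕ) : ℝ :=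
  (((Ioc (lo N (uj J j)) (lo N (uj J (j + 1)))).filter Nat.Prime).card : ℝ) *
    ((NN N (aI A B h s / (N : ℝ) ^ uj J (j + 1)) ((bI A B h s + δ * X) / (N : ℝ) ^ uj J j)).card : ℝ)

/-- the bounds for one value of `N` supplied by `MASS` -/
def MB' (N : ℕ) (δ : ℝ) : Prop := ∀ a b : ℝ, 0 ≤ a → a ≤ b →
  δ * (N : ℝ) ^ 2 ≤ b → b ≤ 4 * (N : ℝ) ^ 2 →
  ∑ p₁ ∈ pr N (1 / 4) (667 / 1000),
    (((Icc 1 ⌊b⌋₊ ×ˢ Icc 1 ⌊b⌋₊).filter (fun x : ℕ × ℕ => x.1.Prime ∧ x.2.Prime ∧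
      (N : ℝ) ^ (667 / 1000 : ℝ) ≤ (x.1 : ℝ) ∧ x.1 ≤ x.2 ∧ a < (p₁ : ℝ) * x.1 * x.2 ∧
      (p₁ : ℝ) * x.1 * x.2 ≤ b)).card : ℝ) ≤
    (195 / 1000 * (b - a) + δ * (N : ℝ) ^ 2) / Real.log N

theorem mass' {r N X z Y m₀ a A B : ℕ} {ε δ : ℝ} {h : ℤ} {Om : ℕ → Finset ℕ}
    (S : St r N X z Y m₀ a ε h Om) (hAB : A ≤ B) (hB : B ≤ X) (hδ0 : 0 < δ) (hδ : δ ≤ 1 / 4000)
    (hN4 : 4000 ≤ N) (hMB : MB' N δ) {J : ℕ} (hJ : 1 ≤ J)
    (hlam : (N : ℝ) ^ (417 / 1000 / (J : ℝ)) ≤ 1 + δ) (s : ℤ) :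
    ∑ j ∈ range J, ms' A B N X J δ h s j ≤
      (195 / 1000 * ((bI A B h s - aI A B h s) + 6 * (δ * X)) + δ * X) / Real.log N := by
  have hN2 : 2 ≤ N := by omega
  have hNr : (4000 : ℝ) ≤ N := by exact_mod_cast hN4
  have hNX : (N : ℝ) ^ 2 ≤ X := by exact_mod_cast S.NX
  have hXN : (X : ℝ) < ((N : ℝ) + 1) ^ 2 := by exact_mod_cast S.XN
  have hL : 0 < Real.log N := Real.log_pos (by linarith)
  set lam := (N : ℝ) ^ (417 / 1000 / (J : ℝ)) with hlamd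
  have hlam1 : 1 ≤ lam := Real.one_le_rpow (by linarith) (by positivity)
  have hlam0 : 0 < lam := by linarith
  obtain ⟨h1, h2, h4⟩ := aI_le S.hX hAB hB s
  have hX0 : (0 : ℝ) ≤ X := Nat.cast_nonneg _
  have hX0' : (0 : ℝ) < X := by nlinarith
  have hX2 : (X : ℝ) ≤ 11 / 10 * (N : ℝ) ^ 2 := by nlinarith
  have hb0' : 0 ≤ bI A B h s := by linarith
  obtain ⟨D, hD⟩ : ∃ D : ℝ, D = δ * X := ⟨_, rfl⟩
  have hD0 : 0 ≤ D := by rw [hD]; positivity
  have hDX : D ≤ 1 / 4000 * X := by rw [hD]; gcongr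
  have hDN : δ * (N : ℝ) ^ 2 ≤ D := by rw [hD]; gcongr
  have hb0 : 0 ≤ bI A B h s + D := by linarith
  have e1 : ∑ j ∈ range J, ms' A B N X J δ h s j =
      ∑ j ∈ range J, ((pr N (uj J j) (uj J (j + 1))).card : ℝ) *
      ((NN N (aI A B h s / (N : ℝ) ^ uj J (j + 1)) ((bI A B h s + D) / (N : ℝ) ^ uj J j)).card : ℝ) := by
    apply Finset.sum_congr rfl
    intro j hj
    unfold ms'
    rw [block_eq hN2 (uj_le_one hJ (mem_range.1 hj)), hD]
  rw [e1]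
  refine (mass_blocks hN2 hJ (aI A B h s) (bI A B h s + D) h1).trans ?_
  rw [← hlamd]
  have ha : aI A B h s / lam ≤ aI A B h s := div_le_self h1 hlam1
  have haX : aI A B h s ≤ 2 * X := by linarith
  have hδa : δ * aI A B h s ≤ 2 * D := by
    calc δ * aI A B h s ≤ δ * (2 * X) := by gcongr
      _ = 2 * D := by rw [hD]; ring
  have hδb : δ * (bI A B h s + D) ≤ 3 * D := by
    calc δ * (bI A B h s + D) ≤ δ * (3 * X) := by gcongr; linarith
      _ = 3 * D := by rw [hD]; ring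
  have hinv : aI A B h s - δ * aI A B h s ≤ aI A B h s / lam := by
    rw [le_div_iff₀ hlam0]
    have h5 : aI A B h s * (1 - δ) * lam ≤ aI A B h s * (1 - δ) * (1 + δ) := by
      apply mul_le_mul_of_nonneg_left hlam
      apply mul_nonneg h1
      linarith
    have h6 : aI A B h s * (1 - δ) * (1 + δ) ≤ aI A B h s := by
      have : aI A B h s * (1 - δ) * (1 + δ) = aI A B h s - aI A B h s * δ ^ 2 := by ring
      rw [this]
      have : 0 ≤ aI A B h s * δ ^ 2 := by positivity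
      linarith
    calc (aI A B h s - δ * aI A B h s) * lam = aI A B h s * (1 - δ) * lam := by ring
      _ ≤ _ := h5.trans h6
  have hbl : bI A B h s + D ≤ (bI A B h s + D) * lam := le_mul_of_one_le_right hb0 hlam1
  have hbu : (bI A B h s + D) * lam ≤ (bI A B h s + D) * (1 + δ) :=
    mul_le_mul_of_nonneg_left hlam hb0
  have hbu2 : (bI A B h s + D) * lam ≤ bI A B h s + D + 3 * D := by
    calc (bI A B h s + D) * lam ≤ (bI A B h s + D) * (1 + δ) := hbu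
      _ = (bI A B h s + D) + δ * (bI A B h s + D) := by ring
      _ ≤ _ := by linarith
  refine (hMB (aI A B h s / lam) ((bI A B h s + D) * lam) (by positivity) (by linarith)
    (by linarith) (by linarith)).trans ?_
  apply div_le_div_of_nonneg_right _ hL.le
  linarith

theorem mass2' {r N X z Y m₀ a A B : ℕ} {ε δ θ : ℝ} {h : ℤ} {Om : ℕ → Finset ℕ}
    (S : St r N X z Y m₀ a ε h Om) (hAB : A ≤ B) (hB : B ≤ X) (hθ0 : 0 < θ) (hδ0 : 0 < δ)
    (hδ : δ ≤ 1 / 4000) (hδθ : δ = θ / 8000) (hθ : θ * X ≤ (B : ℝ) - A) (hθX : 4000 ≤ θ * X)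
    (hN4 : 4000 ≤ N) (hMB : MB' N δ) {J : ℕ} (hJ : 1 ≤ J)
    (hlam : (N : ℝ) ^ (417 / 1000 / (J : ℝ)) ≤ 1 + δ) :
    ∑ j ∈ range J, ms' A B N X J δ h 1 j + ∑ j ∈ range J, ms' A B N X J δ h (-1) j ≤
      196 / 1000 * (((B : ℝ) - A) / Real.log N) := by
  have h1 := mass' S hAB hB hδ0 hδ hN4 hMB hJ hlam 1
  have h2 := mass' S hAB hB hδ0 hδ hN4 hMB hJ hlam (-1)
  have h3 := abI_sum hAB h
  have hL : 0 < Real.log N := Real.log_pos (by
    have : (4000 : ℝ) ≤ N := by exact_mod_cast hN4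
    linarith)
  have hX0 : (0 : ℝ) ≤ X := Nat.cast_nonneg _
  have hD : δ * X ≤ ((B : ℝ) - A) / 8000 := by
    rw [hδθ]
    calc θ / 8000 * X = (θ * X) / 8000 := by ring
      _ ≤ _ := by gcongr
  have h4 : (195 / 1000 * ((bI A B h 1 - aI A B h 1) + 6 * (δ * X)) + δ * X) / Real.log N +
      (195 / 1000 * ((bI A B h (-1) - aI A B h (-1)) + 6 * (δ * X)) + δ * X) / Real.log N ≤
      196 / 1000 * (((B : ℝ) - A) / Real.log N) := by
    rw [← add_div, mul_div_assoc']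
    apply div_le_div_of_nonneg_right _ hL.le
    linarith
  linarith

open Classical in
theorem block' {r N X z Y m₀ a U A B : ℕ} {ε A0 η δ : ℝ} {h : ℤ} {Om : ℕ → Finset ℕ}
    (S : St r N X z Y m₀ a ε h Om) (hAB : A ≤ B) (hB : B ≤ X) (hδ0 : 0 < δ) (hδ : δ ≤ 1 / 4000)
    (hh : h ≠ 0) (hm₀ : 0 < m₀)
    (hmz : ∀ q : ℕ, q.Prime → q ∣ m₀ → q ≤ z) (hN4 : 4000 ≤ N) (hSz : Sz N X)
    (hCB : CB (r + 1) z N ε A0 η) (hTE : TE m₀ (r + 1) U N X) {J : ℕ} (hJ : 1 ≤ J)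
    (hlam : (N : ℝ) ^ (417 / 1000 / (J : ℝ)) ≤ 1 + δ) {s : ℤ} (hs : s = 1 ∨ s = -1)
    {j : ℕ} (hj : j < J) :
    ((FT' A B N X J z Y m₀ a ε δ h Om s j).card : ℝ) ≤
      ε * (ms' A B N X J δ h s j / (Nat.totient m₀ : ℝ) * ∏ p ∈ P1 N z ε, (1 - gC (ZA h Y Om) p)) *
        (1000 / 998 * A0 + η) + Real.log N * (X / Real.log X ^ U) := by
  have hN2 : 2 ≤ N := by omega
  have hNr : (4000 : ℝ) ≤ N := by exact_mod_cast hN4
  have hNX : (N : ℝ) ^ 2 ≤ X := by exact_mod_cast S.NX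
  have hXN : (X : ℝ) < ((N : ℝ) + 1) ^ 2 := by exact_mod_cast S.XN
  have hN0 : (0 : ℝ) < N := by linarith
  have hL : 0 < Real.log N := Real.log_pos (by linarith)
  have hX0 : (0 : ℝ) ≤ X := Nat.cast_nonneg _
  set lam := (N : ℝ) ^ (417 / 1000 / (J : ℝ)) with hlamd
  have hpj : 0 < (N : ℝ) ^ uj J j := Real.rpow_pos_of_pos hN0 _
  have he : (N : ℝ) ^ uj J (j + 1) = (N : ℝ) ^ uj J j * lam := by
    rw [uj_succ, Real.rpow_add hN0]
  obtain ⟨h1, h2, h4⟩ := aI_le S.hX hAB hB s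
  have hDX : δ * X ≤ 1 / 4000 * X := by gcongr
  have hD0 : 0 ≤ δ * X := by positivity
  have hb0 : 0 ≤ bI A B h s + δ * X := by linarith
  -- the sizes
  have hnotdvd : ∀ p ∈ Pr z N, ¬ p ∣ m₀ := by
    intro p hp hd
    have := hmz p (Pr_prime hp) hd
    have := (Pr_mem.1 hp).1.1
    omega
  have hlo : ∀ u : ℝ, (lo N u : ℝ) < (N : ℝ) ^ u := by
    intro u
    have h5 : ¬ lo N u < lo N u := lt_irrefl _
    rw [lo_lt_iff (by omega), not_le] at h5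
    exact h5
  have hlo2 : ∀ u : ℝ, (N : ℝ) ^ u ≤ (lo N u : ℝ) + 1 := by
    intro u
    have h5 := (lo_lt_iff (by omega : 1 ≤ N) u (lo N u + 1)).1 (Nat.lt_succ_self _)
    push_cast at h5
    exact h5
  have hM0 : (X : ℝ) ^ (1 / 9 : ℝ) ≤ lo N (uj J j) := by
    have h5 := hlo2 (uj J j)
    have h6 : (N : ℝ) ^ (1 / 4 : ℝ) ≤ (N : ℝ) ^ uj J j := by
      apply Real.rpow_le_rpow_of_exponent_le (by linarith)
      rw [← uj_zero J]
      exact uj_mono (Nat.zero_le _)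
    linarith [hSz.a]
  have hM01 : lo N (uj J j) ≤ lo N (uj J (j + 1)) := by
    have h5 : (N : ℝ) ^ uj J j ≤ (N : ℝ) ^ uj J (j + 1) :=
      Real.rpow_le_rpow_of_exponent_le (by linarith) (uj_mono (Nat.le_succ _))
    by_contra hcon
    rw [not_le, lo_lt_iff (by omega)] at hcon
    have h6 := hlo (uj J j)
    linarith
  have hM1 : (lo N (uj J (j + 1)) : ℝ) ≤ (X : ℝ) ^ (2 / 5 : ℝ) := by
    refine (hlo _).le.trans (le_trans ?_ hSz.b)
    apply Real.rpow_le_rpow_of_exponent_le (by linarith)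
    rw [← uj_last hJ]
    exact uj_mono (by omega)
  have hMY : lo N (uj J (j + 1)) * ⌊(bI A B h s + δ * X) / (N : ℝ) ^ uj J j⌋₊ ≤ 5 * X := by
    have h5 : ((lo N (uj J (j + 1)) * ⌊(bI A B h s + δ * X) / (N : ℝ) ^ uj J j⌋₊ : ℕ) : ℝ) ≤ 5 * X := by
      push_cast
      calc (lo N (uj J (j + 1)) : ℝ) * (⌊(bI A B h s + δ * X) / (N : ℝ) ^ uj J j⌋₊ : ℝ) ≤
            ((N : ℝ) ^ uj J j * lam) * ((bI A B h s + δ * X) / (N : ℝ) ^ uj J j) := by
            rw [← he]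
            exact mul_le_mul (hlo _).le (Nat.floor_le (by positivity)) (by positivity) (by positivity)
        _ = lam * (bI A B h s + δ * X) := by
            field_simp
        _ ≤ (1 + δ) * (bI A B h s + δ * X) := mul_le_mul_of_nonneg_right hlam hb0
        _ ≤ 2 * (bI A B h s + δ * X) := mul_le_mul_of_nonneg_right (by linarith) hb0
        _ ≤ 5 * X := by linarith
    exact_mod_cast h5
  have hTT : ∀ n ∈ NN N (aI A B h s / (N : ℝ) ^ uj J (j + 1)) ((bI A B h s + δ * X) / (N : ℝ) ^ uj J j),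
      1 ≤ n ∧ n ≤ ⌊(bI A B h s + δ * X) / (N : ℝ) ^ uj J j⌋₊ ∧
      ∀ p ∈ n.primeFactors, (X : ℝ) ^ (1 / 9 : ℝ) ≤ (p : ℝ) := by
    intro n hn
    obtain ⟨g1, g2, g3⟩ := NN_mem hn
    refine ⟨g1, g2, fun p hp => ?_⟩
    have h5 := g3 p hp
    have h6 : (N : ℝ) ^ (1 / 4 : ℝ) ≤ (N : ℝ) ^ (667 / 1000 : ℝ) :=
      Real.rpow_le_rpow_of_exponent_le (by linarith) (by norm_num)
    linarith [hSz.a]
  have hter := hTE z (hr (s * ((a : ℤ) - h)) m₀) (ZT h s Y Om) (S.D.clT hs z N) (S.cop hm₀ hmz hs)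
    hnotdvd _ _ _ hM0 hM01 hM1 hMY _ hTT
  have hh0 : h.natAbs ≠ 0 := Int.natAbs_ne_zero.2 hh
  have hhN : h.natAbs ≤ N ^ 3 := by
    have h5 := S.hX
    have h6 := S.XN
    have h7 : (N + 1) ^ 2 ≤ N ^ 3 := by nlinarith
    omega
  have hms0 : 0 ≤ ms' A B N X J δ h s j := by
    unfold ms'
    positivity
  have hcb := (hCB (ℕ × ℕ) ((TB' A B N X J δ h s j).filter
    (fun x => x.1 * x.2 ≡ hr (s * ((a : ℤ) - h)) m₀ [MOD m₀])) (fun x => vZ (ZT h s Y Om) z N (x.1 * x.2))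
    (gC (ZT h s Y Om)) (ms' A B N X J δ h s j / (Nat.totient m₀ : ℝ)) h.natAbs (by positivity) hh0 hhN (by
      have h5 := S.D.dgT hs z S.Yw
      push_cast at h5 ⊢
      exact h5)).2
  have hprod : ∏ p ∈ P1 N z ε, (1 - gC (ZT h s Y Om) p) = ∏ p ∈ P1 N z ε, (1 - gC (ZA h Y Om) p) := by
    apply Finset.prod_congr rfl
    intro p hp
    rw [S.D.gT hs (mem_P1.1 hp).2.1]
  rw [hprod] at hcb
  refine le_trans (le_of_eq ?_) (hcb.trans ?_)
  · unfold FT'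
    congr!
  have h9 : Real.log N * ∑ q ∈ Lv' z ((N : ℝ) ^ (999 / 1000 : ℝ)),
      Rr ((TB' A B N X J δ h s j).filter (fun x => x.1 * x.2 ≡ hr (s * ((a : ℤ) - h)) m₀ [MOD m₀]))
      (fun x => vZ (ZT h s Y Om) z N (x.1 * x.2)) (gC (ZT h s Y Om))
      (ms' A B N X J δ h s j / (Nat.totient m₀ : ℝ)) q ≤ Real.log N * (X / Real.log X ^ U) := by
    apply mul_le_mul_of_nonneg_left _ hL.le
    exact hter
  linarith

end Pool.Agent.Y840.CI
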