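import Pool.Agent.Y843.CH.Top

/-!
# Chen's theorem in intervals `(A, B]`: the set up

Localised version of the library `Pool.Agent.Y843.CH` of helper843.
-/

set_option autoImplicit false

namespace Pool.Agent.Y840.CI

open Finset Filter Pool.Agent.W23.DC Pool.Agent.Y660.RP
open Pool.Agent.Y843.HS (Pr Pr_mem Pr_prime)
open Pool.Agent.Y843.QD (vZ dvd_vZ)
open Pool.Agent.Y843.HG (Adm Z0 SP)
open Pool.Agent.Y843.CH
open Pool.Agent.TH423.SH.PSUa (ee FF Rd FF_le_ee ee_nonneg)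

theorem PNX_sub {N X A B : ℕ} (hA : N ≤ A) (hB : B ≤ X) : PNX A B ⊆ PNX N X := by
  intro p hp
  unfold PNX at hp ⊢
  rw [mem_filter, mem_Ioc] at hp ⊢
  exact ⟨⟨by omega, by omega⟩, hp.2⟩

open Classical in
theorem aerI (hB : St_BVW) (m₀ κ U : ℕ) (hκ : 1 ≤ κ) (hm₀ : Squarefree m₀) : ∃ X₀ : ℕ, ∀ X : ℕ, X₀ ≤ X →
    ∀ N : ℕ, 1 ≤ N → N ^ 2 ≤ X → ∀ A B : ℕ, A ≤ B → B ≤ X →
    ∀ (z a : ℕ) (cl : ℕ → Finset ℕ), Cl κ z N cl → a.Coprime m₀ →
    (∀ p ∈ Pr z N, ¬ p ∣ m₀) →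
    ∑ d ∈ Lv' z ((N : ℝ) ^ (999 / 1000 : ℝ)), Rr ((PNX A B).filter (fun p => p ≡ a [MOD m₀]))
      (fun p => vZ cl z N p) (gC cl) ((PNX A B).card / (Nat.totient m₀ : ℝ)) d ≤ X / Real.log X ^ U := by
  obtain ⟨X₀, hX₀⟩ := hB m₀ κ (U + 1) hκ
  obtain ⟨X₁, hX₁⟩ := Pool.Agent.Y660.RP.ev_log 2
  refine ⟨max X₀ X₁, ?_⟩
  intro X hX N hN hNX A B hAB hBX z a cl hcl ha hcop
  have h0 : 0 < m₀ := Nat.pos_of_ne_zero hm₀.ne_zero
  have hAX : A ≤ X := hAB.trans hBX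
  have hlog : 2 < Real.log X := hX₁ X ((le_max_right _ _).trans hX)
  have h1 := rr_sum (PNX A B) (fun p => p) κ z N m₀ a hκ cl hcl.card hcl.lt h0 hm₀ ha hcop
    ((PNX A B).card : ℝ) (fun d => ee B d + ee A d) (fun d => add_nonneg (ee_nonneg _ _) (ee_nonneg _ _))
    ((N : ℝ) ^ (999 / 1000 : ℝ)) (by positivity) (level_le' hN) (by
      intro d hd1 hd hds c hc hcd
      rw [card_PNX hAB, card_PNX' hAB]
      have e1 := FF_le_ee B d c hc hcd
      have e2 := FF_le_ee A d c hc hcd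
      unfold FF at e1 e2
      calc |H343E.piAP B d c - H343E.piAP A d c - (H343E.pi1 B - H343E.pi1 A) / (Nat.totient d : ℝ)|
          = |(H343E.piAP B d c - H343E.pi1 B / (Nat.totient d : ℝ)) -
            (H343E.piAP A d c - H343E.pi1 A / (Nat.totient d : ℝ))| := by
            congr 1
            ring
        _ ≤ _ := abs_sub _ _
        _ ≤ _ := add_le_add e1 e2)
  refine h1.trans ?_
  have hQ : ((⌊m₀ * (N : ℝ) ^ (999 / 1000 : ℝ)⌋₊ : ℕ) : ℝ) ≤ m₀ * (X : ℝ) ^ (4995 / 10000 : ℝ) := by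
    refine (Nat.floor_le (by positivity)).trans ?_
    exact mul_le_mul_of_nonneg_left (level_le hNX) (Nat.cast_nonneg _)
  have hX00 : X₀ ≤ X := (le_max_left _ _).trans hX
  have h2 := hX₀ X hX00 B hBX _ hQ
  have h3 := hX₀ X hX00 A hAX _ hQ
  have h4 : ∑ d ∈ (Icc 1 ⌊m₀ * (N : ℝ) ^ (999 / 1000 : ℝ)⌋₊).filter Squarefree,
      (κ : ℝ) ^ d.primeFactors.card * (ee B d + ee A d) ≤
      ∑ d ∈ Icc 1 ⌊m₀ * (N : ℝ) ^ (999 / 1000 : ℝ)⌋₊, (κ : ℝ) ^ d.primeFactors.card * (ee B d + ee A d) := by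
    apply sum_le_sum_of_subset_of_nonneg (filter_subset _ _)
    intro d _ _
    have e1 := ee_nonneg B d
    have e2 := ee_nonneg A d
    positivity
  refine h4.trans ?_
  simp only [mul_add, sum_add_distrib]
  have h5 : (X : ℝ) / Real.log X ^ (U + 1) + X / Real.log X ^ (U + 1) ≤ X / Real.log X ^ U := by
    rw [← add_div, pow_succ, div_le_div_iff₀ (by positivity) (by positivity)]
    have h6 : 0 < Real.log X ^ U := by positivity
    have h7 : (0 : ℝ) ≤ X := Nat.cast_nonneg _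
    have h8 : (0 : ℝ) ≤ X * Real.log X ^ U := by positivity
    nlinarith
  linarith

open Classical in
/-- the primes of the sieve in the interval `(A, B]` -/
noncomputable def O1I (A B N z Y m₀ a : ℕ) (ε : ℝ) (h : ℤ) (Om : ℕ → Finset ℕ) : Finset ℕ :=
  ((PNX A B).filter (fun p => p ≡ a [MOD m₀])).filter
    (fun p => ∀ q ∈ P1 N z ε, ¬ q ∣ vZ (ZA h Y Om) z N p)

theorem O1I_sub {A B N X z Y m₀ a : ℕ} {ε : ℝ} {h : ℤ} {Om : ℕ → Finset ℕ} (hA : N ≤ A) (hB : B ≤ X) :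
    O1I A B N z Y m₀ a ε h Om ⊆ O1 N X z Y m₀ a ε h Om := by
  classical
  unfold O1I O1
  exact filter_subset_filter _ (filter_subset_filter _ (PNX_sub hA hB))

/-- the good primes of the interval `(A, B]` -/
noncomputable def GI (A B N X Y : ℕ) (h : ℤ) (Om : ℕ → Finset ℕ) : Finset ℕ :=
  (GD N X Y h Om).filter (fun p => A < p ∧ p ≤ B)

/-- the primes of the critical type in the interval `(A, B]` -/
noncomputable def TI (A B N X z Y m₀ a : ℕ) (h : ℤ) (Om : ℕ → Finset ℕ) : Finset ℕ :=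
  (TY N X z Y m₀ a h Om).filter (fun p => A < p ∧ p ≤ B)

open Classical in
theorem sumI {r N X z Y m₀ a A B : ℕ} {ε : ℝ} {h : ℤ} {Om : ℕ → Finset ℕ}
    (S : St r N X z Y m₀ a ε h Om) (hA : N ≤ A) (hB : B ≤ X)
    (hW : ∀ n : ℕ, 1 ≤ n → n ≤ 3 * N ^ 2 →
      (∀ p : ℕ, p.Prime → p ∣ n → (N : ℝ) ^ (1 / 4 : ℝ) ≤ p) →
      (∀ p : ℕ, p.Prime → p ^ 2 ∣ n → (N : ℝ) ^ (667 / 1000 : ℝ) ≤ p) →
      n.primeFactorsList.length ≤ 2 ∨ 2 ≤ ((pr N (1 / 4) (667 / 1000)).filter (fun q => q ∣ n)).card ∨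
      (((pr N (1 / 4) (667 / 1000)).filter (fun q => q ∣ n)).card = 1 ∧ Ty N n)) :
    ∑ p ∈ O1I A B N z Y m₀ a ε h Om, II N ε (vZ (ZA h Y Om) z N p) *
      (1 - 1 / 2 * ∑ q ∈ pr N (1 / 4) (667 / 1000), (if q ∣ vZ (ZA h Y Om) z N p then 1 else 0)) ≤
    ((GI A B N X Y h Om).card : ℝ) + 1 / 2 * ((TI A B N X z Y m₀ a h Om).card : ℝ) +
      ((BD N X h).card : ℝ) := by
  refine (Finset.sum_le_sum fun p hp => S.point hW (O1I_sub hA hB hp)).trans ?_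
  rw [Finset.sum_add_distrib, Finset.sum_add_distrib, ← Finset.mul_sum]
  have hAB : ∀ p ∈ O1I A B N z Y m₀ a ε h Om, A < p ∧ p ≤ B := by
    intro p hp
    unfold O1I PNX at hp
    rw [mem_filter, mem_filter, mem_filter, mem_Ioc] at hp
    exact hp.1.1.1
  have key : ∀ T : Finset ℕ, ∑ p ∈ O1I A B N z Y m₀ a ε h Om, (if p ∈ T then (1 : ℝ) else 0) ≤
      (T.filter (fun p => A < p ∧ p ≤ B)).card := by
    intro T
    rw [Finset.sum_boole]
    apply Nat.cast_le.2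
    apply card_le_card
    intro p hp
    rw [mem_filter] at hp
    exact mem_filter.2 ⟨hp.2, hAB p hp.1⟩
  have h1 := key (GD N X Y h Om)
  have h2 := key (TY N X z Y m₀ a h Om)
  have h3 := key (BD N X h)
  have h4 : (((BD N X h).filter (fun p => A < p ∧ p ≤ B)).card : ℝ) ≤ ((BD N X h).card : ℝ) := by
    exact_mod_cast card_filter_le _ _
  unfold GI TI
  linarith

/-! ### the products of three primes -/

/-- the interval of the products -/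
noncomputable def aI (A B : ℕ) (h s : ℤ) : ℝ :=
  if s = 1 then max ((A : ℝ) - h) 0 else max ((h : ℝ) - B - 1) 0
noncomputable def bI (A B : ℕ) (h s : ℤ) : ℝ :=
  if s = 1 then max ((B : ℝ) - h) 0 else max ((h : ℝ) - A) 0

open Classical in
/-- the block `(s, j)` -/
noncomputable def TB' (A B N X J : ℕ) (δ : ℝ) (h s : ℤ) (j : ℕ) : Finset (ℕ × ℕ) :=
  MN (lo N (uj J j)) (lo N (uj J (j + 1)))
    (NN N (aI A B h s / (N : ℝ) ^ uj J (j + 1)) ((bI A B h s + δ * X) / (N : ℝ) ^ uj J j))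

open Classical in
/-- the sifted block -/
noncomputable def FT' (A B N X J z Y m₀ a : ℕ) (ε δ : ℝ) (h : ℤ) (Om : ℕ → Finset ℕ) (s : ℤ) (j : ℕ) :
    Finset (ℕ × ℕ) :=
  ((TB' A B N X J δ h s j).filter (fun x => x.1 * x.2 ≡ hr (s * ((a : ℤ) - h)) m₀ [MOD m₀])).filter
    (fun x => (∀ p ∈ P1 N z ε, ¬ p ∣ vZ (ZT h s Y Om) z N (x.1 * x.2)) ∧
      ∀ p ∈ pr N ε (7 / 20), ¬ p ∣ vZ (ZT h s Y Om) z N (x.1 * x.2))

theorem typ_mem' {A B N X J z Y m₀ a : ℕ} {ε δ : ℝ} {h : ℤ} {Om : ℕ → Finset ℕ} (hN : 2 ≤ N) (hJ : 1 ≤ J)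
    (hδ : 0 ≤ δ) (hm₀ : 0 < m₀) {p : ℕ} (hp : p ∈ TI A B N X z Y m₀ a h Om) :
    ∃ s : ℤ, (s = 1 ∨ s = -1) ∧ ∃ j < J, ∃ x ∈ FT' A B N X J z Y m₀ a ε δ h Om s j,
      (p : ℤ) = h + s * ((x.1 * x.2 : ℕ) : ℤ) := by
  classical
  unfold TI TY at hp
  rw [mem_filter, mem_filter] at hp
  obtain ⟨⟨hpN, hpa, hpq, p₁, p₂, p₃, h1, h2, h3, h4, h5, h6⟩, hpA, hpB⟩ := hp
  unfold PNX at hpN
  rw [mem_filter, mem_Ioc] at hpN
  obtain ⟨⟨hpN, hpX⟩, hpp⟩ := hpN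
  have hNr : (1 : ℝ) < N := by exact_mod_cast (by omega : 1 < N)
  have hN0 : (0 : ℝ) < N := by linarith
  have h1p := (mem_pr.1 h1).2.1
  set n := p₁ * (p₂ * p₃) with hn
  have hn0 : 0 < n := Nat.mul_pos h1p.pos (Nat.mul_pos h2.pos h3.pos)
  obtain ⟨s, hs, hps, hsa, hsb⟩ : ∃ s : ℤ, (s = 1 ∨ s = -1) ∧ (p : ℤ) = h + s * (n : ℤ) ∧
      aI A B h s < n ∧ (n : ℝ) ≤ bI A B h s := by
    rcases lt_or_ge (p : ℤ) h with hlt | hge
    · refine ⟨-1, Or.inr rfl, by omega, ?_, ?_⟩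
      · unfold aI
        rw [if_neg (by norm_num)]
        apply max_lt
        · have : h - B - 1 < (n : ℤ) := by omega
          exact_mod_cast this
        · exact_mod_cast hn0
      · unfold bI
        rw [if_neg (by norm_num)]
        refine le_max_of_le_left ?_
        have : (n : ℤ) ≤ h - A := by omega
        exact_mod_cast this
    · refine ⟨1, Or.inl rfl, by omega, ?_, ?_⟩
      · unfold aI
        rw [if_pos rfl]
        apply max_lt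
        · have : A - h < (n : ℤ) := by omega
          exact_mod_cast this
        · exact_mod_cast hn0
      · unfold bI
        rw [if_pos rfl]
        refine le_max_of_le_left ?_
        have : (n : ℤ) ≤ B - h := by omega
        exact_mod_cast this
  obtain ⟨j, hj, hj1, hj2⟩ := exists_block hJ (mem_pr.1 h1).2.2.1 (mem_pr.1 h1).2.2.2
  refine ⟨s, hs, j, hj, (p₁, p₂ * p₃), ?_, hps⟩
  have hu1 : uj J (j + 1) ≤ 1 := by
    have := uj_mono (J := J) (show j + 1 ≤ J by omega)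
    rw [uj_last hJ] at this
    linarith
  have g1 := (le_tt_iff hN h1p _).1 hj1
  have g2 := (tt_lt_iff hN h1p _).1 hj2
  have hpj : 0 < (N : ℝ) ^ uj J j := Real.rpow_pos_of_pos hN0 _
  have hpj1 : 0 < (N : ℝ) ^ uj J (j + 1) := Real.rpow_pos_of_pos hN0 _
  have h23 : (0 : ℝ) < (p₂ : ℝ) * p₃ := by
    have e1 : (0 : ℝ) < p₂ := by exact_mod_cast h2.pos
    have e2 : (0 : ℝ) < p₃ := by exact_mod_cast h3.pos
    positivity
  have hnr : (n : ℝ) = (p₁ : ℝ) * ((p₂ : ℝ) * p₃) := by rw [hn]; push_cast; ring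
  have hlow : aI A B h s / (N : ℝ) ^ uj J (j + 1) < (p₂ : ℝ) * p₃ := by
    rw [div_lt_iff₀ hpj1]
    calc aI A B h s < n := hsa
      _ = (p₁ : ℝ) * ((p₂ : ℝ) * p₃) := hnr
      _ ≤ (N : ℝ) ^ uj J (j + 1) * ((p₂ : ℝ) * p₃) := by gcongr
      _ = _ := by ring
  have hupp : (p₂ : ℝ) * p₃ ≤ (bI A B h s + δ * X) / (N : ℝ) ^ uj J j := by
    rw [le_div_iff₀ hpj]
    calc (p₂ : ℝ) * p₃ * (N : ℝ) ^ uj J j ≤ (p₂ : ℝ) * p₃ * p₁ := by gcongr
      _ = n := by rw [hnr]; ring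
      _ ≤ bI A B h s + δ * X := by
          have : 0 ≤ δ * X := by positivity
          linarith
  have hmul : (p₁ * (p₂ * p₃) : ℕ) = n := rfl
  have hfl : ∀ k : ℕ, k ≤ p₂ * p₃ → k ≤ ⌊(bI A B h s + δ * X) / (N : ℝ) ^ uj J j⌋₊ := by
    intro k hk
    apply Nat.le_floor
    refine le_trans ?_ hupp
    exact_mod_cast hk
  unfold FT'
  rw [mem_filter, mem_filter]
  refine ⟨⟨?_, ?_⟩, ?_, ?_⟩
  · unfold TB' MN
    rw [mem_product, block_eq hN hu1]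
    refine ⟨mem_pr.2 ⟨(mem_pr.1 h1).1, h1p, hj1, hj2⟩, ?_⟩
    unfold NN PP
    rw [mem_image]
    refine ⟨(p₂, p₃), ?_, rfl⟩
    rw [mem_filter, mem_product, mem_Icc, mem_Icc]
    exact ⟨⟨⟨h2.pos, hfl _ (Nat.le_mul_of_pos_right _ h3.pos)⟩,
      h3.pos, hfl _ (Nat.le_mul_of_pos_left _ h2.pos)⟩, h2, h3, h4, h5, hlow, hupp⟩
  · simp only
    rw [hmul]
    have e1 : s * s = 1 := by
      rcases hs with rfl | rfl <;> norm_num
    have e2 : ((n : ℕ) : ℤ) ≡ s * ((a : ℤ) - h) [ZMOD m₀] := by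
      have e3 : (p : ℤ) ≡ a [ZMOD m₀] := Int.natCast_modEq_iff.2 hpa
      have e4 : s * ((p : ℤ) - h) ≡ s * ((a : ℤ) - h) [ZMOD m₀] := (e3.sub_right h).mul_left s
      have e5 : s * ((p : ℤ) - h) = n := by
        rw [hps]
        calc s * (h + s * (n : ℤ) - h) = (s * s) * n := by ring
          _ = n := by rw [e1, one_mul]
      rw [e5] at e4
      exact e4
    have e6 : hr (n : ℤ) m₀ = hr (s * ((a : ℤ) - h)) m₀ := (hr_eq_iff _ _ hm₀).2 e2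
    rw [hr_nat n hm₀] at e6
    unfold Nat.ModEq
    rw [← e6, Nat.mod_mod]
  all_goals
    intro q hq hdv
    simp only at hdv
    rw [hmul] at hdv
    have hqp : q.Prime := by
      first
      | exact (mem_P1.1 hq).2.1
      | exact (mem_pr.1 hq).2.1
    obtain ⟨hqz, hqm⟩ := (dvd_vZ hqp).1 hdv
    unfold ZT at hqm
    rw [mem_filter, hr_add h s n hqp.pos, ← hps, hr_nat p hqp.pos] at hqm
    have hqm2 := hqm.2
    unfold ZTp at hqm2
    split_ifs at hqm2 with hY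
    · exact hpq q (Pr_mem.2 ⟨⟨(Pr_mem.1 hqz).1.1, hY⟩, hqp⟩) hqm2
    · rw [mem_singleton] at hqm2
      have h7 := (Nat.prime_dvd_prime_iff_eq hqp hpp).1 (Nat.dvd_of_mod_eq_zero hqm2)
      have h8 := (Pr_mem.1 hqz).1.2
      omega

theorem typ_le' {A B N X J z Y m₀ a : ℕ} {ε δ : ℝ} {h : ℤ} {Om : ℕ → Finset ℕ} (hN : 2 ≤ N) (hJ : 1 ≤ J)
    (hδ : 0 ≤ δ) (hm₀ : 0 < m₀) :
    (TI A B N X z Y m₀ a h Om).card ≤ ∑ j ∈ range J, (FT' A B N X J z Y m₀ a ε δ h Om 1 j).card +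
      ∑ j ∈ range J, (FT' A B N X J z Y m₀ a ε δ h Om (-1) j).card := by
  classical
  set f : ℤ → ℕ × ℕ → ℕ := fun s x => (h + s * ((x.1 * x.2 : ℕ) : ℤ)).toNat with hf
  have hsub : TI A B N X z Y m₀ a h Om ⊆
      ((range J).biUnion (fun j => (FT' A B N X J z Y m₀ a ε δ h Om 1 j).image (f 1))) ∪
      ((range J).biUnion (fun j => (FT' A B N X J z Y m₀ a ε δ h Om (-1) j).image (f (-1)))) := by
    intro p hp
    obtain ⟨s, hs, j, hj, x, hx, hpx⟩ := typ_mem' (ε := ε) (δ := δ) hN hJ hδ hm₀ hp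
    have hfp : f s x = p := by
      rw [hf]
      simp only
      rw [← hpx]
      exact Int.toNat_natCast p
    rw [mem_union]
    rcases hs with rfl | rfl
    · left
      rw [mem_biUnion]
      exact ⟨j, mem_range.2 hj, mem_image.2 ⟨x, hx, hfp⟩⟩
    · right
      rw [mem_biUnion]
      exact ⟨j, mem_range.2 hj, mem_image.2 ⟨x, hx, hfp⟩⟩
  refine (card_le_card hsub).trans ((card_union_le _ _).trans ?_)
  exact add_le_add (card_biUnion_le.trans (sum_le_sum fun j _ => card_image_le))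
    (card_biUnion_le.trans (sum_le_sum fun j _ => card_image_le))

end Pool.Agent.Y840.CI
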