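import Pool.Agent.Y840.CI.Asy

/-!
# Chen's theorem in intervals of length `θ X`, uniformly in the shift and inside sifted sets
-/

set_option autoImplicit false

namespace Pool.Agent.Y840.CI

open Finset Filter Pool.Agent.W23.DC Pool.Agent.Y660.RP
open Pool.Agent.Y843.HS (Pr VV Pr_mem Pr_prime VV_split card_res)
open Pool.Agent.Y843.HG (Adm Z0 SP V1 V1_bounds log_floor VV_low)
open Pool.Agent.Y843.QD (vZ dvd_vZ)
open Pool.Agent.Y843.CH

/-- **Chen's theorem in intervals** for `0 < θ ≤ 1` and `√X ≤ A` -/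
theorem chenI_of (hC : St_CORE) (hB : St_BVW) (hLv : St_BLV) (hM : St_MASS) (hNm : St_NUM) (hW : St_WT)
    (r : ℕ) : ∃ t : ℕ, 1 ≤ t ∧ ∃ c : ℝ, 0 < c ∧ ∀ θ : ℝ, 0 < θ → θ ≤ 1 →
      ∃ X₀ : ℕ, ∀ X : ℕ, X₀ ≤ X → ∀ h : ℤ, h ≠ 0 →
      h.natAbs ≤ X → ∀ Om : ℕ → Finset ℕ, Dat r ⌊(X : ℝ) ^ (1 / (t : ℝ))⌋₊ h Om →
      ∀ A B : ℕ, Nat.sqrt X ≤ A → A ≤ B → B ≤ X → θ * X ≤ (B : ℝ) - A →
      c * ((B : ℝ) - A) * VV (Z0 Om) 0 ⌊(X : ℝ) ^ (1 / (t : ℝ))⌋₊ ≤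
        ((GI A B (Nat.sqrt X) X ⌊(X : ℝ) ^ (1 / (t : ℝ))⌋₊ h Om).card : ℝ) := by
  classical
  obtain ⟨A0, C0, hA0, hcore⟩ := hC (r + 1) (by omega)
  set z := max C0 (r + 5) with hz
  have hzC : C0 ≤ z := le_max_left _ _
  have hzr : r + 5 ≤ z := le_max_right _ _
  obtain ⟨ε, hε, hε8, N0, hN02, hN0⟩ := hcore z hzC (A0 / 10000) (by positivity)
  set t := ⌈4 / ε⌉₊ with ht
  have ht4 : 4 / ε ≤ t := Nat.le_ceil _
  have ht1 : 1 ≤ t := Nat.one_le_iff_ne_zero.2 (Nat.ceil_pos.2 (by positivity)).ne'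
  have ht0 : (0 : ℝ) < t := by exact_mod_cast ht1
  set m₀ := ∏ p ∈ Pr 0 z, p with hm₀
  have hm₀p : ∀ p ∈ Pr 0 z, p.Prime := fun p hp => Pr_prime hp
  have hm₀1 : 0 < m₀ := prod_pos fun p hp => (Pr_prime hp).pos
  have hm₀s : Squarefree m₀ := by
    rw [hm₀]
    exact Finset.squarefree_prod_of_pairwise_isCoprime (fun p hp q hq hpq => by
      exact Nat.coprime_iff_isRelPrime.1
        ((Nat.coprime_primes (Pr_prime hp) (Pr_prime hq)).2 hpq))
      (fun p h => (Pr_prime h).prime.squarefree)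
  have hm₀z : ∀ q : ℕ, q.Prime → q ∣ m₀ → q ≤ z := by
    intro p hp h
    rw [hm₀, hp.prime.dvd_finsetProd_iff] at h
    obtain ⟨q, hq, hpq⟩ := h
    rw [(Nat.prime_dvd_prime_iff_eq hp (Pr_prime hq)).1 hpq]
    exact (Pr_mem.1 hq).1.2
  set K := 2 * (r + 1) with hK
  obtain ⟨X1, hX1⟩ := aerI hB m₀ (r + 1) (K + 4) (by omega) hm₀s
  obtain ⟨X2, hX2⟩ := ter hLv m₀ (r + 1) (K + 4) (by omega) hm₀s
  obtain ⟨N4, hN4⟩ := hW
  obtain ⟨cV, hcV, hV⟩ := VV_low (r + 1)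
  obtain ⟨c1, C1, hc1, hC1, hVb⟩ := V1_bounds
  obtain ⟨X6, hX6⟩ := log_floor t ht1
  have hφ0 : (0 : ℝ) < m₀.totient := by exact_mod_cast Nat.totient_pos.2 hm₀1
  have hVz := V1_pos z
  set k := V1 z / (2 * t * C1) * (c1 / (t * C1)) ^ 2 with hk
  have hk0 : 0 < k := by positivity
  set cm := 4 / 10000 * A0 * ε * k / m₀.totient with hcm
  have hcm0 : 0 < cm := by positivity
  refine ⟨t, ht1, cm / 2, by positivity, ?_⟩
  intro θ hθ hθ1
  obtain ⟨δ, hδd⟩ : ∃ δ : ℝ, δ = θ / 8000 := ⟨_, rfl⟩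
  have hδ0 : 0 < δ := by rw [hδd]; positivity
  have hδ4 : δ ≤ 1 / 4000 := by rw [hδd]; linarith
  obtain ⟨N3, hN3⟩ := hM δ hδ0
  obtain ⟨N5, hN5⟩ := pnt_int θ hθ hθ1
  set CJ := 1 / Real.log (1 + δ) with hCJ
  have hCJ0 : 0 < CJ := by
    have : 0 < Real.log (1 + δ) := Real.log_pos (by linarith)
    positivity
  set b := max (max ⌈CJ + 2⌉₊ (z + 5)) (max (2 * (r + 1) + 5) (max ⌈4000 / θ⌉₊ 4000)) with hb
  have hb1 : CJ + 2 ≤ b := by
    have h1 : ((⌈CJ + 2⌉₊ : ℕ) : ℝ) ≤ b := by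
      exact_mod_cast (le_max_left _ _).trans (le_max_left _ _)
    exact (Nat.le_ceil _).trans h1
  have hb2 : z + 5 ≤ b := (le_max_right _ _).trans (le_max_left _ _)
  have hb3 : 2 * (r + 1) + 5 ≤ b := (le_max_left _ _).trans (le_max_right _ _)
  have hb4 : 4000 ≤ b := (le_max_right _ _).trans ((le_max_right _ _).trans (le_max_right _ _))
  have hb5 : 4000 / θ ≤ b := by
    have h1 : ((⌈4000 / θ⌉₊ : ℕ) : ℝ) ≤ b := by
      exact_mod_cast (le_max_left _ _).trans ((le_max_right _ _).trans (le_max_right _ _))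
    exact (Nat.le_ceil _).trans h1
  obtain ⟨N7, hN7⟩ := sizes ε hε t ht4 K (cm * cV * θ / 4) (by positivity) b
  set NM := max (max (max N0 N3) (max N4 N5)) N7 with hNM
  refine ⟨max (max X1 X2) (max X6 ((NM + 1) ^ 2)), ?_⟩
  intro X hX h hh hhX Om D A B hNA hAB hBX hθX
  have hXX1 : X1 ≤ X := ((le_max_left _ _).trans (le_max_left _ _)).trans hX
  have hXX2 : X2 ≤ X := ((le_max_right _ _).trans (le_max_left _ _)).trans hX
  have hXX6 : X6 ≤ X := ((le_max_left _ _).trans (le_max_right _ _)).trans hX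
  have hXX7 : (NM + 1) ^ 2 ≤ X := ((le_max_right _ _).trans (le_max_right _ _)).trans hX
  set N := Nat.sqrt X with hN
  have hNX : N ^ 2 ≤ X := Nat.sqrt_le' X
  have hXN : X < (N + 1) ^ 2 := Nat.lt_succ_sqrt' X
  have hNMN : NM ≤ N := by
    exact le_sqrt_aux hXX7
  have hNN0 : N0 ≤ N := ((le_max_left _ _).trans ((le_max_left _ _).trans (le_max_left _ _))).trans hNMN
  have hNN3 : N3 ≤ N := ((le_max_right _ _).trans ((le_max_left _ _).trans (le_max_left _ _))).trans hNMN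
  have hNN4 : N4 ≤ N := ((le_max_left _ _).trans ((le_max_right _ _).trans (le_max_left _ _))).trans hNMN
  have hNN5 : N5 ≤ N := ((le_max_right _ _).trans ((le_max_right _ _).trans (le_max_left _ _))).trans hNMN
  have hNN7 : N7 ≤ N := (le_max_right _ _).trans hNMN
  obtain ⟨s1, s2, s3, s4, s5, s6, s7, s8, s9⟩ := hN7 N hNN7 X hNX hXN
  obtain ⟨y1, y2⟩ := hX6 X hXX6
  set w := (X : ℝ) ^ (1 / (t : ℝ)) with hw
  set Y := ⌊w⌋₊ with hY
  have hw0 : 0 ≤ w := by positivity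
  have hYw : (Y : ℝ) ≤ w := Nat.floor_le hw0
  have hbY : b ≤ Y := Nat.le_floor s5
  have hN4000 : 4000 ≤ N := hb4.trans s1
  have hNr : (4000 : ℝ) ≤ N := by exact_mod_cast hN4000
  have hX4 : 4000 ≤ X := le_of_sq_le hN4000 hNX
  have hXr : (4000 : ℝ) ≤ X := by exact_mod_cast hX4
  have hbX : (b : ℝ) ≤ X := by exact_mod_cast le_of_sq_le s1 hNX
  have hθX4 : 4000 ≤ θ * X := by
    have h1 := hb5.trans hbX
    rw [div_le_iff₀ hθ] at h1
    linarith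
  obtain ⟨a, ha⟩ := exists_a D.adm (show z ≤ Y by omega)
  have S : St r N X z Y m₀ a ε h Om :=
    ⟨D, by omega, s2, hNX, hXN, hhX, by omega, lt_of_le_of_lt hYw s6, hε, hε8,
      fun q hq => dvd_prod_of_mem _ hq, ha⟩
  have hL : 0 < Real.log N := Real.log_pos (by linarith)
  obtain ⟨g1, g2⟩ := log_sq (show 4 ≤ N by omega) hNX hXN
  have hlX : 0 < Real.log X := by linarith
  have hL1 : 1 ≤ Real.log N := by
    have h1 : Real.exp 1 ≤ N := by linarith [Real.exp_one_lt_d9]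
    rw [← Real.log_exp 1]
    exact Real.log_le_log (Real.exp_pos 1) h1
  have hlX1 : 1 ≤ Real.log X := by linarith
  -- the number of blocks
  obtain ⟨J, hJd⟩ : ∃ J : ℕ, J = ⌈417 / 1000 * Real.log N / Real.log (1 + δ)⌉₊ := ⟨_, rfl⟩
  obtain ⟨hJ1, hlam, hJ2⟩ := lam_le' δ hδ0 N J (by omega) hJd
  rw [← hCJ] at hJ2
  -- the inputs for this `N`
  have hCB : CB (r + 1) z N ε A0 (A0 / 10000) := (hN0 N hNN0).2
  have hTE : TE m₀ (r + 1) (K + 4) N X := hX2 X hXX2 N (by omega) hNX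
  have hMB : MB' N δ := hN3 N hNN3
  have hnotdvd : ∀ p ∈ Pr z N, ¬ p ∣ m₀ := by
    intro p hp hd
    have := hm₀z p (Pr_prime hp) hd
    have := (Pr_mem.1 hp).1.1
    omega
  have hEA := hX1 X hXX1 N (by omega) hNX A B hAB hBX z a (ZA h Y Om) (D.clA z N) (S.cop_a hm₀z) hnotdvd
  have hh0 : h.natAbs ≠ 0 := Int.natAbs_ne_zero.2 hh
  have hhN : h.natAbs ≤ N ^ 3 := by
    have h7 : (N + 1) ^ 2 ≤ N ^ 3 := sq_le_cube (le_trans (by norm_num) hN4000)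
    omega
  set V := ∏ p ∈ P1 N z ε, (1 - gC (ZA h Y Om) p) with hVd
  have hEX : (0 : ℝ) ≤ X / Real.log X ^ (K + 4) := by positivity
  -- the lower bound
  have hlow := (hCB ℕ ((PNX A B).filter (fun p => p ≡ a [MOD m₀])) (fun p => vZ (ZA h Y Om) z N p)
    (gC (ZA h Y Om)) ((PNX A B).card / (Nat.totient m₀ : ℝ)) h.natAbs (by positivity) hh0 hhN (by
      have h5 := S.D.dg z S.Yw
      exact h5)).1
  rw [← hVd] at hlow
  have hsum := sumI S hNA hBX (hN4 N hNN4)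
  have hlow2 : ε * ((PNX A B).card / (Nat.totient m₀ : ℝ) * V) * (A0 * (1000 / 998 * LBc) - A0 / 10000) -
      Real.log N * (X / Real.log X ^ (K + 4)) ≤ ((GI A B N X Y h Om).card : ℝ) +
      1 / 2 * ((TI A B N X z Y m₀ a h Om).card : ℝ) + ((BD N X h).card : ℝ) := by
    refine le_trans ?_ hsum
    refine le_trans ?_ hlow
    have := mul_le_mul_of_nonneg_left hEA hL.le
    linarith
  -- the upper bound
  have hty := typ_le' (A := A) (B := B) (N := N) (X := X) (J := J) (z := z) (Y := Y) (m₀ := m₀) (a := a)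
    (ε := ε) (δ := δ) (h := h) (Om := Om) (by omega) hJ1 hδ0.le hm₀1
  have hbl : ∀ s : ℤ, (s = 1 ∨ s = -1) → ∑ j ∈ range J, ((FT' A B N X J z Y m₀ a ε δ h Om s j).card : ℝ) ≤
      ε * ((∑ j ∈ range J, ms' A B N X J δ h s j) / (Nat.totient m₀ : ℝ) * V) * (1000 / 998 * A0 + A0 / 10000) +
        J * (Real.log N * (X / Real.log X ^ (K + 4))) := by
    intro s hs
    have h1 : ∀ j ∈ range J, ((FT' A B N X J z Y m₀ a ε δ h Om s j).card : ℝ) ≤
        ε * (ms' A B N X J δ h s j / (Nat.totient m₀ : ℝ) * V) * (1000 / 998 * A0 + A0 / 10000) +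
          Real.log N * (X / Real.log X ^ (K + 4)) := fun j hj =>
      block' S hAB hBX hδ0 hδ4 hh hm₀1 hm₀z hN4000 s7 hCB hTE hJ1 hlam hs (mem_range.1 hj)
    refine (Finset.sum_le_sum h1).trans (le_of_eq ?_)
    rw [Finset.sum_add_distrib, Finset.sum_const, card_range, nsmul_eq_mul]
    congr 1
    rw [Finset.sum_div, Finset.sum_mul, Finset.mul_sum, Finset.sum_mul]
  have hup : ((TI A B N X z Y m₀ a h Om).card : ℝ) ≤
      ε * ((∑ j ∈ range J, ms' A B N X J δ h 1 j + ∑ j ∈ range J, ms' A B N X J δ h (-1) j) /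
        (Nat.totient m₀ : ℝ) * V) *
        (1000 / 998 * A0 + A0 / 10000) + 2 * (J * (Real.log N * (X / Real.log X ^ (K + 4)))) := by
    have h1 := hbl 1 (Or.inl rfl)
    have h2 := hbl (-1) (Or.inr rfl)
    have h3 : ((TI A B N X z Y m₀ a h Om).card : ℝ) ≤
        ∑ j ∈ range J, ((FT' A B N X J z Y m₀ a ε δ h Om 1 j).card : ℝ) +
        ∑ j ∈ range J, ((FT' A B N X J z Y m₀ a ε δ h Om (-1) j).card : ℝ) := by
      exact_mod_cast hty
    have h4 : ε * ((∑ j ∈ range J, ms' A B N X J δ h 1 j + ∑ j ∈ range J, ms' A B N X J δ h (-1) j) /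
        (Nat.totient m₀ : ℝ) * V) * (1000 / 998 * A0 + A0 / 10000) =
        ε * ((∑ j ∈ range J, ms' A B N X J δ h 1 j) / (Nat.totient m₀ : ℝ) * V) *
          (1000 / 998 * A0 + A0 / 10000) +
        ε * ((∑ j ∈ range J, ms' A B N X J δ h (-1) j) / (Nat.totient m₀ : ℝ) * V) *
          (1000 / 998 * A0 + A0 / 10000) := by
      ring
    linarith
  -- the combination
  have hpl := S.prod_low (by omega) (by omega) (by omega)
  rw [← hVd] at hpl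
  have hQ := VV_nonneg D.adm
  have hVY := V1_pos Y
  have hVN := V1_pos N
  have hV0 : 0 ≤ V := le_trans (by positivity) hpl
  have hBA0 : 0 ≤ (B : ℝ) - A := by
    have : (A : ℝ) ≤ B := by exact_mod_cast hAB
    linarith
  have hW0 : (0 : ℝ) ≤ ((B : ℝ) - A) / Real.log N := by positivity
  obtain ⟨p1, p2⟩ := hN5 N hNN5 X hNX hXN A B hNA hAB hBX hθX
  have hM2 := mass2' S hAB hBX hθ hδ0 hδ4 hδd hθX hθX4 hN4000 hMB hJ1 hlam
  have hfin := arith_final hε hV0 hφ0 hA0 hNm.1 hW0 p1 p2 hM2 hlow2 hup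
  have hBD := BD_card (X := X) (h := h) s3 s4
  have hkf := kfac hQ hVz hVY hVN hC1 hc1 ht0 hlX hL y2 g1 (hVb Y (by omega)).2 (hVb N (by omega)).1 hpl
  rw [← hk] at hkf
  have hml := main_low hA0 hε hφ0 hBA0 hL g1 hk0 hQ hkf
  rw [← hcm] at hml
  have hEr := errs_le (K := K) (c := cm * cV * θ / 4) (CJ := CJ) (b := b) hL (by linarith) hlX1
    (Nat.cast_nonneg X) hJ2 (Nat.cast_nonneg J) hCJ0.le hb1 s9 le_rfl hEX s8
  -- the lower bound for the product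
  have hVVl := hV Y (by omega) (Z0 Om) (by
    intro p hp
    refine ⟨?_, ?_, D.adm.lt hp⟩
    · rw [D.adm.card hp]
      have := (D.adm p hp).1
      omega
    · rw [D.adm.card hp]
      exact (D.adm p hp).2.1)
  have hYX : (Y : ℝ) ≤ X := by
    have h1 : w ≤ X := by
      calc w ≤ (X : ℝ) ^ (1 : ℝ) := by
            apply Real.rpow_le_rpow_of_exponent_le (by linarith)
            rw [div_le_one ht0]
            exact_mod_cast ht1
        _ = X := Real.rpow_one _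
    linarith
  have hlYX : Real.log Y ≤ Real.log X :=
    Real.log_le_log (by exact_mod_cast (show 0 < Y by omega)) hYX
  have hlY0 : 0 < Real.log Y := Real.log_pos (by exact_mod_cast (show 1 < Y by omega))
  have hVX : cV / Real.log X ^ K ≤ VV (Z0 Om) 0 Y := by
    refine le_trans ?_ hVVl
    apply div_le_div_of_nonneg_left hcV.le (by positivity)
    exact pow_le_pow_left₀ hlY0.le hlYX _
  have hE2 : 2 * (cm * cV * θ / 4) * (X / Real.log X ^ K) ≤ cm / 2 * ((B : ℝ) - A) * VV (Z0 Om) 0 Y := by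
    have h1 : 2 * (cm * cV * θ / 4) * (X / Real.log X ^ K) = cm / 2 * (θ * X) * (cV / Real.log X ^ K) := by
      ring
    rw [h1]
    have h2 : 0 ≤ cV / Real.log X ^ K := by positivity
    have h3 : 0 ≤ cm / 2 * ((B : ℝ) - A) := by positivity
    calc cm / 2 * (θ * X) * (cV / Real.log X ^ K) ≤ cm / 2 * ((B : ℝ) - A) * (cV / Real.log X ^ K) := by
          gcongr
      _ ≤ _ := mul_le_mul_of_nonneg_left hVX h3
  linarith

/-- **Chen's theorem in intervals** of length at least `θ X`, with the expected order of magnitude,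
uniformly in the shift `h`, and inside the primes that avoid further residue classes modulo the
primes up to `X ^ (1/t)`, `t` independent of `θ`. -/
theorem chenI (r : ℕ) : ∃ t : ℕ, 1 ≤ t ∧ ∃ c : ℝ, 0 < c ∧ ∀ θ : ℝ, 0 < θ →
      ∃ X₀ : ℕ, ∀ X : ℕ, X₀ ≤ X → ∀ h : ℤ, h ≠ 0 →
      h.natAbs ≤ X → ∀ Om : ℕ → Finset ℕ, Dat r ⌊(X : ℝ) ^ (1 / (t : ℝ))⌋₊ h Om →
      ∀ A B : ℕ, B ≤ X → θ * X ≤ (B : ℝ) - A →
      c * ((B : ℝ) - A) * VV (Z0 Om) 0 ⌊(X : ℝ) ^ (1 / (t : ℝ))⌋₊ ≤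
        ((GI A B (Nat.sqrt X) X ⌊(X : ℝ) ^ (1 / (t : ℝ))⌋₊ h Om).card : ℝ) := by
  obtain ⟨t, ht, c, hc, H⟩ := chenI_of Pool.Agent.Y261.CH.core Pool.Agent.Y932.CH.bvw
    Pool.Agent.Y261.CH.blv (Pool.Agent.Y48.CH.mass Pool.Agent.Y484.CH.num) Pool.Agent.Y484.CH.num
    Pool.Agent.Y73.CH.wt r
  refine ⟨t, ht, c / 2, by positivity, fun θ hθ => ?_⟩
  obtain ⟨X₀, hX₀⟩ := H (min (θ / 2) 1) (by positivity) (min_le_right _ _)
  have e1 : ∀ᶠ X : ℕ in atTop, (2 / θ + 1 : ℝ) ≤ (X : ℝ) ^ (1 / 2 : ℝ) :=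
    ((tendsto_rpow_atTop (show (0 : ℝ) < 1 / 2 by norm_num)).comp
      tendsto_natCast_atTop_atTop).eventually (eventually_ge_atTop _)
  obtain ⟨X₁, h1⟩ := eventually_atTop.1 e1
  refine ⟨max (max X₀ X₁) 1, ?_⟩
  intro X hX h hh hhX Om D A B hBX hθX
  have hX1 : 1 ≤ X := (le_max_right _ _).trans hX
  have hX0 : (0 : ℝ) < X := by exact_mod_cast hX1
  have h2 := h1 X ((le_max_right _ _).trans ((le_max_left _ _).trans hX))
  -- `2 √X ≤ θ X`
  have h3 : 2 * (Nat.sqrt X : ℝ) ≤ θ * X := by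
    have h4 : (Nat.sqrt X : ℝ) ≤ (X : ℝ) ^ (1 / 2 : ℝ) := by
      rw [← Real.sqrt_eq_rpow]
      exact Real.nat_sqrt_le_real_sqrt
    have h5 : (X : ℝ) = (X : ℝ) ^ (1 / 2 : ℝ) * (X : ℝ) ^ (1 / 2 : ℝ) := by
      rw [← Real.rpow_add hX0]
      norm_num
    have h6 : 2 / θ ≤ (X : ℝ) ^ (1 / 2 : ℝ) := by linarith
    rw [div_le_iff₀ hθ] at h6
    have h7 : 0 < (X : ℝ) ^ (1 / 2 : ℝ) := by positivity
    calc 2 * (Nat.sqrt X : ℝ) ≤ 2 * (X : ℝ) ^ (1 / 2 : ℝ) := by linarith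
      _ ≤ ((X : ℝ) ^ (1 / 2 : ℝ) * θ) * (X : ℝ) ^ (1 / 2 : ℝ) := mul_le_mul_of_nonneg_right h6 h7.le
      _ = θ * ((X : ℝ) ^ (1 / 2 : ℝ) * (X : ℝ) ^ (1 / 2 : ℝ)) := by ring
      _ = θ * X := by rw [← h5]
  have hθX0 : 0 < θ * (X : ℝ) := by positivity
  have hBX' : (B : ℝ) ≤ X := by exact_mod_cast hBX
  have hA0 : (0 : ℝ) ≤ A := Nat.cast_nonneg _
  set A' := max A (Nat.sqrt X) with hA'
  have hA'r : (A' : ℝ) = max (A : ℝ) (Nat.sqrt X) := by rw [hA']; push_cast; rfl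
  have h8 : ((B : ℝ) - A) / 2 ≤ (B : ℝ) - A' := by
    rw [hA'r]
    rcases max_cases (A : ℝ) (Nat.sqrt X : ℝ) with ⟨e, _⟩ | ⟨e, _⟩ <;> rw [e] <;> linarith
  have h9 : A' ≤ B := by
    have : (A' : ℝ) ≤ B := by linarith
    exact_mod_cast this
  have h10 : min (θ / 2) 1 * X ≤ (B : ℝ) - A' := by
    have : min (θ / 2) 1 * X ≤ θ / 2 * X := mul_le_mul_of_nonneg_right (min_le_left _ _) hX0.le
    linarith
  have h11 := hX₀ X ((le_max_left _ _).trans ((le_max_left _ _).trans hX)) h hh hhX Om D A' B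
    (le_max_right _ _) h9 hBX h10
  have hQ := VV_nonneg D.adm
  refine le_trans ?_ (h11.trans ?_)
  · apply mul_le_mul_of_nonneg_right _ hQ
    calc c / 2 * ((B : ℝ) - A) = c * (((B : ℝ) - A) / 2) := by ring
      _ ≤ c * ((B : ℝ) - A') := mul_le_mul_of_nonneg_left h8 hc.le
  · rw [Nat.cast_le]
    apply card_le_card
    intro p hp
    unfold GI at hp ⊢
    rw [mem_filter] at hp ⊢
    exact ⟨hp.1, lt_of_le_of_lt (le_max_left _ _) hp.2.1, hp.2.2⟩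

end Pool.Agent.Y840.CI
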